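import Pool.Agent.MT100E.Stmts

/-!
# MT100-E, module SPN: double annihilator over `ℚ`
-/

set_option autoImplicit false

namespace Pool.Agent.MT100E.H20

/-- clearing the denominators of a rational vector -/
theorem exists_int {s : ℕ} (f : Fin s → ℚ) : ∃ (D : ℕ) (m : Fin s → ℤ), 0 < D ∧
    ∀ i, (m i : ℚ) = (D : ℚ) * f i := by
  refine ⟨∏ i, (f i).den, fun i => (f i).num * ((∏ j ∈ Finset.univ.erase i, (f j).den : ℕ) : ℤ),
    Finset.prod_pos fun i _ => (f i).den_pos, fun i => ?_⟩
  have h1 : (∏ j, (f j).den) = (f i).den * ∏ j ∈ Finset.univ.erase i, (f j).den :=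
    (Finset.mul_prod_erase Finset.univ (fun j => (f j).den) (Finset.mem_univ i)).symm
  have h2 : ((f i).den : ℚ) * f i = (f i).num := by
    rw [mul_comm]
    exact Rat.mul_den_eq_num (f i)
  rw [h1, Nat.cast_mul, Int.cast_mul, Int.cast_natCast]
  rw [← h2]
  ring

/-- SPN -/
theorem spn : SpnStmt := by
  intro s A c h
  have hQ : (fun i => (c i : ℚ)) ∈ Submodule.span ℚ
      ((fun (v : Fin s → ℤ) (i : Fin s) => (v i : ℚ)) '' A) := by
    by_contra hc
    obtain ⟨f, hf1, hf2⟩ := Submodule.exists_le_ker_of_notMem hc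
    have hfx : ∀ x : Fin s → ℚ, f x = ∑ i, x i * f (Pi.single i 1) := by
      intro x
      have h0 : x = ∑ i, x i • (Pi.single i (1 : ℚ) : Fin s → ℚ) := by
        funext j
        rw [Finset.sum_apply, Finset.sum_eq_single j]
        · rw [Pi.smul_apply, Pi.single_eq_same, smul_eq_mul, mul_one]
        · intro i _ hi
          rw [Pi.smul_apply, Pi.single_eq_of_ne (Ne.symm hi), smul_eq_mul, mul_zero]
        · intro hj
          exact absurd (Finset.mem_univ j) hj
      conv_lhs => rw [h0, map_sum]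
      refine Finset.sum_congr rfl fun i _ => ?_
      rw [map_smul, smul_eq_mul]
    obtain ⟨D, m, hD, hm⟩ := exists_int (fun i => f (Pi.single i 1))
    have hD' : (D : ℚ) ≠ 0 := by exact_mod_cast hD.ne'
    have key : ∀ v : Fin s → ℤ, ((∑ i, m i * v i : ℤ) : ℚ) = D * f (fun i => (v i : ℚ)) := by
      intro v
      rw [hfx, Finset.mul_sum, Int.cast_sum]
      refine Finset.sum_congr rfl fun i _ => ?_
      rw [Int.cast_mul, hm]
      ring
    have h1 : ∑ i, m i * c i = 0 := by
      refine h m fun v hv => ?_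
      have h2 : f (fun i => (v i : ℚ)) = 0 := by
        have h3 := hf2 (Submodule.subset_span (Set.mem_image_of_mem _ hv))
        exact LinearMap.mem_ker.1 h3
      have h3 := key v
      rw [h2, mul_zero] at h3
      exact_mod_cast h3
    have h2 := key c
    rw [h1, Int.cast_zero] at h2
    rcases mul_eq_zero.1 h2.symm with h3 | h3
    · exact hD' h3
    · exact hf1 h3
  have hC : ∀ x ∈ Submodule.span ℚ ((fun (v : Fin s → ℤ) (i : Fin s) => (v i : ℚ)) '' A),
      (fun i => ((x i : ℚ) : ℂ)) ∈
        Submodule.span ℂ ((fun (v : Fin s → ℤ) (i : Fin s) => (v i : ℂ)) '' A) := by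
    intro x hx
    refine Submodule.span_induction (p := fun x _ => (fun i => ((x i : ℚ) : ℂ)) ∈
        Submodule.span ℂ ((fun (v : Fin s → ℤ) (i : Fin s) => (v i : ℂ)) '' A))
      ?_ ?_ ?_ ?_ hx
    · rintro _ ⟨v, hv, rfl⟩
      have h1 : (fun i => (((v i : ℤ) : ℚ) : ℂ)) = fun i => ((v i : ℤ) : ℂ) := by
        funext i
        push_cast
        rfl
      simp only
      rw [h1]
      exact Submodule.subset_span (Set.mem_image_of_mem _ hv)
    · have h1 : (fun i => (((0 : Fin s → ℚ) i : ℚ) : ℂ)) = 0 := by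
        funext i
        simp
      rw [h1]
      exact Submodule.zero_mem _
    · intro x y _ _ hx hy
      have h1 : (fun i => (((x + y) i : ℚ) : ℂ)) =
          (fun i => ((x i : ℚ) : ℂ)) + fun i => ((y i : ℚ) : ℂ) := by
        funext i
        simp
      rw [h1]
      exact Submodule.add_mem _ hx hy
    · intro a x _ hx
      have h1 : (fun i => (((a • x) i : ℚ) : ℂ)) = (a : ℂ) • fun i => ((x i : ℚ) : ℂ) := by
        funext i
        simp
      rw [h1]
      exact Submodule.smul_mem _ _ hx
  have h1 := hC _ hQ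
  have h2 : (fun i => (((c i : ℤ) : ℚ) : ℂ)) = fun i => ((c i : ℤ) : ℂ) := by
    funext i
    push_cast
    rfl
  rw [h2] at h1
  exact h1

end Pool.Agent.MT100E.H20
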